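import Mathlib

set_option autoImplicit false
open Filter Topology

namespace Pool.Agent.Results.MP_98aad6_an.Lex

section defs
variable {X : Type} [AddCommGroup X] [Module ℝ X] [TopologicalSpace X]

/-- `F` is a face of `C` -/
def IsFace (C F : Set X) : Prop :=
  Convex ℝ F ∧ F ⊆ C ∧ ∀ x ∈ F, ∀ y ∈ C, ∀ z ∈ C, x ∈ openSegment ℝ y z → y ∈ F ∧ z ∈ F

/-- the smallest face of `C` containing `x` -/
def Fmin (x : X) (C : Set X) : Set X := ⋂₀ {F | IsFace C F ∧ x ∈ F}

/-- face relative interior -/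
def fri (C : Set X) : Set X := {x | x ∈ C ∧ C ⊆ closure (Fmin x C)}

/-- `cone (C - x)` -/
def cone (C : Set X) (x : X) : Set X := {v | ∃ y ∈ C, ∃ α : ℝ, 0 ≤ α ∧ v = α • (y - x)}

/-- quasi-relative interior -/
def qri (C : Set X) : Set X :=
  {x | x ∈ C ∧ ∃ V : Submodule ℝ X, closure (cone C x) = (V : Set X)}

end defs

/-- the real Hilbert space `ℓ²(ℕ)` -/
abbrev L2 : Type := lp (fun _ : ℕ => ℝ) 2

def C : Set L2 := {x | ∃ N, 0 < x N ∧ ∀ k, N < k → x k = 0}

lemma comb {x y : L2} {N M : ℕ} (hx : 0 < x N) (hx' : ∀ k, N < k → x k = 0) (hy : 0 < y M)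
    (hy' : ∀ k, M < k → y k = 0) {a b : ℝ} (ha : 0 < a) (hb : 0 < b) :
    0 < (a • x + b • y) (max N M) ∧ ∀ k, max N M < k → (a • x + b • y) k = 0 := by
  simp only [lp.coeFn_add, lp.coeFn_smul, Pi.add_apply, Pi.smul_apply, smul_eq_mul]
  constructor
  · rcases lt_trichotomy N M with h | h | h
    · rw [max_eq_right h.le, hx' M h]; positivity
    · subst h; rw [max_self]; positivity
    · rw [max_eq_left h.le, hy' N h]; positivity
  · intro k hk
    rw [hx' k (by omega), hy' k (by omega)]; simp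

lemma C_convex : Convex ℝ C := by
  rw [convex_iff_forall_pos]
  rintro x ⟨N, hx, hx'⟩ y ⟨M, hy, hy'⟩ a b ha hb -
  exact ⟨_, comb hx hx' hy hy' ha hb⟩

lemma single_mem (N : ℕ) : (lp.single 2 N (1 : ℝ) : L2) ∈ C :=
  ⟨N, by simp, fun k hk => lp.single_apply_ne _ _ _ hk.ne'⟩

lemma C_dense : Dense C := by
  intro x
  have h1 := (lp.hasSum_single (E := fun _ : ℕ => ℝ) (p := 2) (by simp) x).tendsto_sum_nat
  have h2 : Tendsto (fun n : ℕ => (lp.single 2 n (1 / ((n : ℝ) + 1)) : L2)) atTop (𝓝 0) := by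
    rw [tendsto_zero_iff_norm_tendsto_zero]
    refine tendsto_one_div_add_atTop_nhds_zero_nat.congr fun n => ?_
    rw [lp.norm_single (by simp), Real.norm_of_nonneg (by positivity)]
  have h3 := h1.add h2
  rw [add_zero] at h3
  refine mem_closure_of_tendsto h3 (Eventually.of_forall fun n => ⟨n, ?_, fun k hk => ?_⟩)
  · simp only [lp.coeFn_add, Pi.add_apply, lp.coeFn_sum, Finset.sum_apply, lp.single_apply_self]
    rw [Finset.sum_eq_zero fun i hi => lp.single_apply_ne _ _ _ (Finset.mem_range.1 hi).ne']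
    positivity
  · simp only [lp.coeFn_add, Pi.add_apply, lp.coeFn_sum, Finset.sum_apply]
    rw [Finset.sum_eq_zero fun i hi =>
      lp.single_apply_ne _ _ _ (by have := Finset.mem_range.1 hi; omega),
      lp.single_apply_ne _ _ _ hk.ne', add_zero]

theorem result : ∃ C : Set L2, Convex ℝ C ∧ (qri C).Nonempty ∧ fri C = ∅ := by
  refine ⟨C, C_convex, ⟨_, single_mem 0, ⊤, ?_⟩, ?_⟩
  · rw [Submodule.top_coe, ← dense_iff_closure_eq]
    refine ((Homeomorph.subRight _).surjective.denseRange.dense_image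
      (Homeomorph.subRight (lp.single 2 0 (1 : ℝ) : L2)).continuous C_dense).mono ?_
    rintro _ ⟨y, hy, rfl⟩
    exact ⟨y, hy, 1, zero_le_one, by simp⟩
  · rw [Set.eq_empty_iff_forall_notMem]
    rintro x ⟨⟨N, hx, hx'⟩, h⟩
    have hF : IsFace C {y | ∃ M, M ≤ N ∧ 0 < y M ∧ ∀ k, M < k → y k = 0} := by
      refine ⟨?_, fun y ⟨M, _, hy⟩ => ⟨M, hy⟩, ?_⟩
      · rw [convex_iff_forall_pos]
        rintro x ⟨P, hP, hx, hx'⟩ y ⟨M, hM, hy, hy'⟩ a b ha hb -
        exact ⟨_, max_le hP hM, comb hx hx' hy hy' ha hb⟩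
      · rintro _ ⟨M, hM, -, hw⟩ y ⟨P, hy, hy'⟩ z ⟨Q, hz, hz'⟩ ⟨a, b, ha, hb, -, rfl⟩
        have h1 := (comb hy hy' hz hz' ha hb).1
        have h2 : max P Q ≤ M := by
          by_contra hc
          exact h1.ne' (hw _ (not_le.1 hc))
        exact ⟨⟨P, by omega, hy, hy'⟩, ⟨Q, by omega, hz, hz'⟩⟩
    have hcl : IsClosed {y : L2 | y (N + 1) = 0} := by
      have : Continuous fun y : L2 => y (N + 1) :=
        (continuous_apply (N + 1)).comp lp.uniformContinuous_coe.continuous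
      exact isClosed_eq this continuous_const
    have h3 : Fmin x C ⊆ {y : L2 | y (N + 1) = 0} := by
      intro y hy
      obtain ⟨M, hM, -, hy'⟩ := hy _ ⟨hF, N, le_rfl, hx, hx'⟩
      exact hy' _ (by omega)
    have := (hcl.closure_subset_iff.2 h3) (h (single_mem (N + 1)))
    simp at this

end Pool.Agent.Results.MP_98aad6_an.Lex
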